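import Mathlib

namespace Pool.Agent.Results.MP_945a85_co.Counter

abbrev E (n : ℕ) := EuclideanSpace ℝ (Fin n)

/-- closed locus: continuous image of the circle -/
def Locus {n : ℕ} (A : Set (E n)) : Prop := ∃ γ : Circle → E n, Continuous γ ∧ A = Set.range γ

def Homothetic {n : ℕ} (A B : Set (E n)) : Prop :=
  ∃ (l : ℝ) (v : E n), l ≠ 0 ∧ B = (fun x => l • x + v) '' A

def IsCircle {n : ℕ} (A : Set (E n)) : Prop :=
  ∃ (c u v : E n) (r : ℝ), 0 < r ∧ ‖u‖ = 1 ∧ ‖v‖ = 1 ∧ inner ℝ u v = 0 ∧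
    A = Set.range fun t : ℝ => c + (r * Real.cos t) • u + (r * Real.sin t) • v

/-- the distance graph on `A ∪ B` -/
def G {n : ℕ} (A B : Set (E n)) (d : ℝ) : SimpleGraph (A ∪ B : Set (E n)) :=
  SimpleGraph.fromRel fun p q => p.1 ∈ A ∧ q.1 ∈ B ∧ dist p.1 q.1 = d

noncomputable def g (e : ℝ) (z : ℂ) : E 5 :=
  !₂[z.re, z.im, (z.re ^ 2 - z.im ^ 2) / 2, z.re * z.im, e]

noncomputable def C (e : ℝ) : Set (E 5) := Set.range fun z : Circle => g e z

theorem nrm (z : Circle) : (z : ℂ).re ^ 2 + (z : ℂ).im ^ 2 = 1 := by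
  have := z.normSq_coe
  rw [Complex.normSq_apply] at this
  linarith

theorem locus (e : ℝ) : Locus (C e) := by
  refine ⟨_, ?_, rfl⟩
  unfold g
  refine (PiLp.continuous_toLp 2 _).comp (continuous_pi fun i => ?_)
  fin_cases i <;> simp <;> fun_prop

theorem ginj {e e' : ℝ} {z w : ℂ} (h : g e z = g e' w) : e = e' ∧ z = w := by
  have h0 := congrArg (fun p : E 5 => p 0) h
  have h1 := congrArg (fun p : E 5 => p 1) h
  have h4 := congrArg (fun p : E 5 => p 4) h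
  simp [g] at h0 h1 h4
  exact ⟨h4, Complex.ext h0 h1⟩

def I' : Circle := ⟨Complex.I, by simp [Submonoid.unitSphere]⟩

theorem dist_iff (z w : Circle) :
    dist (g 0 z) (g 1 w) = 2 ↔ (w : ℂ) = Complex.I * z ∨ (w : ℂ) = -Complex.I * z := by
  have hz := nrm z
  have hw := nrm w
  rw [EuclideanSpace.dist_eq, Real.sqrt_eq_iff_mul_self_eq (by positivity) (by norm_num)]
  simp only [g, Fin.sum_univ_succ, Real.dist_eq, sq_abs, Complex.ext_iff]
  simp
  generalize (z : ℂ).re = x at *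
  generalize (z : ℂ).im = y at *
  generalize (w : ℂ).re = a at *
  generalize (w : ℂ).im = b at *
  have key : (x - a) ^ 2 + ((y - b) ^ 2 + (((x ^ 2 - y ^ 2) / 2 - (a ^ 2 - b ^ 2) / 2) ^ 2 +
      ((x * y - a * b) ^ 2 + 1))) = 4 - (x * a + y * b) * (2 + (x * a + y * b)) := by
    linear_combination (1 + (x ^ 2 + y ^ 2 + 1) / 4 + (a ^ 2 + b ^ 2) / 2) * hz +
      (1 + (a ^ 2 + b ^ 2 + 1) / 4 + 1 / 2) * hw
  rw [key]
  constructor
  · intro h
    have h2 : 0 < 2 + (x * a + y * b) := by nlinarith [sq_nonneg (x + a), sq_nonneg (y + b)]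
    have h3 : x * a + y * b = 0 := by
      have : (x * a + y * b) * (2 + (x * a + y * b)) = 0 := by linarith
      exact (mul_eq_zero.1 this).resolve_right h2.ne'
    have h4 : (x * b - y * a - 1) * (x * b - y * a + 1) = 0 := by
      linear_combination (a ^ 2 + b ^ 2) * hz + hw - (x * a + y * b) * h3
    rcases mul_eq_zero.1 h4 with h5 | h5
    · left
      exact ⟨by linear_combination -a * hz + x * h3 - y * h5,
        by linear_combination -b * hz + y * h3 + x * h5⟩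
    · right
      exact ⟨by linear_combination -a * hz + x * h3 - y * h5,
        by linear_combination -b * hz + y * h3 + x * h5⟩
  · rintro (⟨rfl, rfl⟩ | ⟨rfl, rfl⟩) <;> ring

theorem notc (e : ℝ) : ¬ IsCircle (C e) := by
  rintro ⟨c, u, v, r, -, -, -, -, h⟩
  have key : ∀ z : Circle, ∃ w : Circle, g e z + g e w = c + c := by
    intro z
    obtain ⟨t, ht⟩ := h.subset ⟨z, rfl⟩
    obtain ⟨w, hw⟩ := h.symm.subset ⟨t + Real.pi, rfl⟩
    refine ⟨w, ?_⟩
    simp only at ht hw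
    rw [hw, ← ht, Real.cos_add_pi, Real.sin_add_pi]
    module
  have k : ∀ z : Circle, ∃ a b : ℝ, a ^ 2 + b ^ 2 = 1 ∧ (z : ℂ).re + a = c 0 + c 0 ∧
      (z : ℂ).im + b = c 1 + c 1 ∧
      ((z : ℂ).re ^ 2 - (z : ℂ).im ^ 2) / 2 + (a ^ 2 - b ^ 2) / 2 = c 2 + c 2 := by
    intro z
    obtain ⟨w, hw⟩ := key z
    have h0 := congrArg (fun p : E 5 => p 0) hw
    have h1 := congrArg (fun p : E 5 => p 1) hw
    have h2 := congrArg (fun p : E 5 => p 2) hw
    simp [g] at h0 h1 h2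
    exact ⟨_, _, nrm w, h0, h1, h2⟩
  obtain ⟨a1, b1, n1, p1, q1, r1⟩ := k 1
  obtain ⟨a2, b2, n2, p2, q2, -⟩ := k (I' * I')
  obtain ⟨a3, b3, n3, p3, q3, r3⟩ := k I'
  simp [I'] at p1 q1 r1 p2 q2 p3 q3 r3
  have e1 : a1 = 2 * c 0 - 1 := by linarith
  have e2 : a2 = 2 * c 0 + 1 := by linarith
  have c0 : c 0 = 0 := by rw [e1, q1] at n1; rw [e2, q2] at n2; linarith
  have c1 : c 1 = 0 := by rw [e1, q1, c0] at n1; nlinarith
  have e3 : b3 = -1 := by linarith
  rw [e1, q1, c0, c1] at r1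
  rw [p3, e3, c0] at r3
  norm_num at r1 r3
  linarith

theorem disj {p : E 5} (h0 : p ∈ C 0) (h1 : p ∈ C 1) : False := by
  obtain ⟨z, rfl⟩ := h0
  obtain ⟨w, h⟩ := h1
  simpa using (ginj h).1

theorem adj (p q : (C 0 ∪ C 1 : Set (E 5))) : (G (C 0) (C 1) 2).Adj p q ↔
    ∃ (e : ℝ) (z w : Circle), (e = 0 ∨ e = 1) ∧ p.1 = g e z ∧ q.1 = g (1 - e) w ∧
      ((w : ℂ) = Complex.I * z ∨ (w : ℂ) = -Complex.I * z) := by
  have sy : ∀ z w : ℂ, (w = Complex.I * z ∨ w = -Complex.I * z) →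
      (z = Complex.I * w ∨ z = -Complex.I * w) := by
    rintro z w (rfl | rfl)
    · right; linear_combination z * Complex.I_sq
    · left; linear_combination z * Complex.I_sq
  rw [G, SimpleGraph.fromRel_adj]
  constructor
  · rintro ⟨-, ⟨⟨z, hz⟩, ⟨w, hw⟩, h⟩ | ⟨⟨z, hz⟩, ⟨w, hw⟩, h⟩⟩
    · rw [← hz, ← hw, dist_iff] at h
      exact ⟨0, z, w, Or.inl rfl, hz.symm, by simpa using hw.symm, h⟩
    · rw [← hz, ← hw, dist_iff] at h
      exact ⟨1, w, z, Or.inr rfl, hw.symm, by simpa using hz.symm, sy _ _ h⟩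
  · rintro ⟨e, z, w, rfl | rfl, hp, hq, h⟩
    · rw [sub_zero] at hq
      refine ⟨?_, Or.inl ⟨⟨z, hp.symm⟩, ⟨w, hq.symm⟩, by rw [hp, hq, dist_iff]; exact h⟩⟩
      rintro rfl
      exact disj ⟨z, hp.symm⟩ ⟨w, hq.symm⟩
    · rw [sub_self] at hq
      refine ⟨?_, Or.inr ⟨⟨w, hq.symm⟩, ⟨z, hp.symm⟩,
        by rw [hp, hq, dist_iff]; exact sy _ _ h⟩⟩
      rintro rfl
      exact disj ⟨w, hq.symm⟩ ⟨z, hp.symm⟩

theorem form (p : (C 0 ∪ C 1 : Set (E 5))) :
    ∃ (e : ℝ) (z : Circle), (e = 0 ∨ e = 1) ∧ p.1 = g e z := by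
  obtain ⟨p, ⟨z, h⟩ | ⟨z, h⟩⟩ := p
  · exact ⟨0, z, Or.inl rfl, h.symm⟩
  · exact ⟨1, z, Or.inr rfl, h.symm⟩

noncomputable def φ (p : E 5) : ℂ := (⟨p 0, p 1⟩ : ℂ) ^ 4

theorem φg (e : ℝ) (z : ℂ) : φ (g e z) = z ^ 4 := by simp [φ, g]

theorem result : ∃ (n : ℕ) (d : ℝ) (A B : Set (E n)), 0 < d ∧ Locus A ∧ Locus B ∧
    Homothetic A B ∧ Disjoint A B ∧ (∀ p, ((G A B d).neighborSet p).ncard = 2) ∧
    (∀ c : (G A B d).ConnectedComponent, c.supp.Finite) ∧ ¬ IsCircle A ∧ ¬ IsCircle B := by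
  refine ⟨5, 2, C 0, C 1, two_pos, locus 0, locus 1, ⟨1, g 1 0, one_ne_zero, ?_⟩,
    Set.disjoint_left.2 fun p => disj, ?_, ?_, notc 0, notc 1⟩
  · rw [C, C, ← Set.range_comp]
    congr 1
    funext z
    ext i
    fin_cases i <;> simp [g]
  · intro p
    obtain ⟨e, z, he, hp⟩ := form p
    have hm : ∀ w : Circle, g (1 - e) w ∈ C 0 ∪ C 1 := by
      intro w
      rcases he with rfl | rfl
      · exact Or.inr ⟨w, by simp⟩
      · exact Or.inl ⟨w, by simp⟩
    have a1 : ((I' * z : Circle) : ℂ) = Complex.I * z := by simp [I']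
    have a2 : ((I' * I' * I' * z : Circle) : ℂ) = -Complex.I * z := by simp [I']
    rw [Set.ncard_eq_two]
    refine ⟨⟨_, hm (I' * z)⟩, ⟨_, hm (I' * I' * I' * z)⟩, ?_, ?_⟩
    · intro h
      have := (ginj (congrArg Subtype.val h)).2
      rw [a1, a2] at this
      have h2 : (2 * Complex.I) * z = 0 := by linear_combination this
      simp at h2
    · ext q
      rw [SimpleGraph.mem_neighborSet, adj]
      simp only [Set.mem_insert_iff, Set.mem_singleton_iff, Subtype.ext_iff]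
      constructor
      · rintro ⟨e', z', w, -, h1, h2, h3⟩
        obtain ⟨rfl, h4⟩ := ginj (hp.symm.trans h1)
        rw [a1, a2, h2, h4]
        exact h3.imp (fun h => by rw [h]) (fun h => by rw [h])
      · rintro (h | h)
        · exact ⟨e, z, _, he, hp, h, Or.inl a1⟩
        · exact ⟨e, z, _, he, hp, h, Or.inr a2⟩
  · intro c
    induction c using SimpleGraph.ConnectedComponent.ind with
    | _ p =>
    have inv : ∀ q, (G (C 0) (C 1) 2).Reachable p q → φ q.1 = φ p.1 := by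
      intro q h
      rw [SimpleGraph.reachable_iff_reflTransGen] at h
      induction h with
      | refl => rfl
      | tail _ h ih =>
        obtain ⟨e, z, w, -, h1, h2, h3⟩ := (adj _ _).1 h
        rw [← ih, h1, h2, φg, φg]
        rcases h3 with h3 | h3 <;> rw [h3] <;> linear_combination (z : ℂ) ^ 4 * Complex.I_pow_four
    have fin := (Polynomial.nthRoots 4 (φ p.1)).toFinset.finite_toSet
    refine (((fin.image (g 0)).union (fin.image (g 1))).preimage
      Subtype.val_injective.injOn).subset fun q hq => ?_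
    have h := inv q (SimpleGraph.ConnectedComponent.exact hq).symm
    obtain ⟨e, z, he, hz⟩ := form q
    rw [hz, φg] at h
    have hz' : (z : ℂ) ∈ ((Polynomial.nthRoots 4 (φ p.1)).toFinset : Set ℂ) := by
      simpa [Polynomial.mem_nthRoots] using h
    rcases he with rfl | rfl
    · exact Or.inl ⟨z, hz', hz.symm⟩
    · exact Or.inr ⟨z, hz', hz.symm⟩

end Pool.Agent.Results.MP_945a85_co.Counter
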